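import Pool.Agent.H675.DCD.Backward2
import Pool.Agent.H675.DCD.Plane
import Pool.Agent.H675.DCD.PolyW
import Pool.Graph.R_seed8.H673R2.HardOn

/-!
# Minimum directed cycle decomposition of planar Eulerian digraphs is NP-hard

Definitions: `Pool/Agent/H675/DCD/Defs.lean` (digraphs, Eulerian, planar, directed cycles,
decompositions, `CycleNumberLE D k`, that is `c(D) ≤ k`), the library files `NPC/Defs.lean`
(polynomial time, `NP`, coding by bit strings) and `H673R2/HardOn.lean` (`NPHardOn`).

Idea of the proof. The digraph has two hubs `0` and `1` of out-degree `k`, and `T` levels between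
them, with `k` wires that go down and `k` wires that go up. If there are at most `k` cycles, each
cycle visits both hubs, and between any two levels it uses exactly one wire that goes down and
one that goes up. Two opposite arcs between neighbouring wires force them to cross. A common
vertex of two neighbouring wires of the same direction allows an exchange of their cycles. A common
vertex of a wire that goes down and of one that goes up says that their cycles are different. This
suffices to encode the satisfiability of a formula with three literals per clause.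
-/

namespace Pool.Agent.Results.MP_0ab4aa_lc.PlanarMinDCDNPHard

open Pool.Agent.NPC Pool.Agent.H675.DCD Pool.Agent.H673R2

/-- The number of wires in each direction. -/
def kk (φ : List ((Bool × ℕ) × (Bool × ℕ) × (Bool × ℕ))) : ℕ := 2 * (3 * φ.length) + 1

/-- The reduction. -/
def red (φ : List ((Bool × ℕ) × (Bool × ℕ) × (Bool × ℕ))) : Dig × ℕ :=
  (dig (kk φ) (satW (kk φ) φ), kk φ)

theorem red_poly : Poly red := by
  have hk : UPoly kk :=
    UPoly.add (UPoly.mul (UPoly.const 2) (UPoly.mul (UPoly.const 3) (UPoly.length Poly.id)))
      (UPoly.const 1)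
  exact Poly.pair (DCD675.poly_dig hk (DCD675.poly_satW hk Poly.id)) hk.toPoly

theorem red_iff {φ : List ((Bool × ℕ) × (Bool × ℕ) × (Bool × ℕ))} (hd : Distinct3 φ)
    (hb : Bounded3 φ) : SAT3 φ ↔ CycleNumberLE (red φ).1 (red φ).2 := by
  have hk : kk φ = 2 * (3 * φ.length) + 1 := rfl
  have hv : Valid (kk φ) (satW (kk φ) φ) := valid_satW hk φ hb
  rw [← sat_word hk φ hb hd]
  constructor
  · rintro ⟨s, s', hi, hr⟩
    exact decomposition_of_run hv hi.1 hi.2 hr
  · intro h
    exact run_of_decomposition (Nat.succ_pos _) hv h

/-- **PLANAR-MIN-DCD is NP-hard**: every problem in `NP` has a polynomial-time many-one reduction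
to the question whether `c(D) ≤ k`, and all the digraphs `D` that it produces are loopless, planar
and Eulerian. -/
theorem result : NPHardOn
    (fun x : Dig × ℕ => Loopless x.1 ∧ Eulerian x.1 ∧ Planar x.1)
    (fun x : Dig × ℕ => CycleNumberLE x.1 x.2) := by
  refine npHardOn_of hardPr_SAT3b red_poly ?_ ?_
  · rintro φ ⟨-, hb, -⟩
    have hk : kk φ = 2 * (3 * φ.length) + 1 := rfl
    have hv : Valid (kk φ) (satW (kk φ) φ) := valid_satW hk φ hb
    exact ⟨loopless_dig hv, eulerian_dig _ _, planar_dig hv (Nat.succ_pos _)⟩
  · rintro φ ⟨hd, hb, -⟩
    exact red_iff hd hb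

end Pool.Agent.Results.MP_0ab4aa_lc.PlanarMinDCDNPHard
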